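import Pool.Agent.Q234.KT.Stm3
import Pool.Agent.Y738.PE.Final
import Pool.Agent.Y70.PE.Region
import Pool.Agent.Y65.PE.Bound

/-!
# Vectors which are close in norm have close reduced states (project KT, job NR)
-/

set_option autoImplicit false

open scoped BigOperators ComplexConjugate

namespace Pool.Agent.Q241.KT.NR

open Pool.Agent.Q234.KT Pool.Agent.Y738.PE

section abs

variable {S T : Type} [Fintype S] [Fintype T]

/-- The parallelogram identity. -/
theorem par (f g : S → ℂ) : nrm (fun s => f s + g s) + nrm (fun s => f s - g s) = 2 * (nrm f + nrm g) := by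
  unfold nrm
  rw [← Finset.sum_add_distrib, ← Finset.sum_add_distrib, Finset.mul_sum]
  refine Finset.sum_congr rfl fun s _ => ?_
  rw [Complex.sq_norm, Complex.sq_norm, Complex.sq_norm, Complex.sq_norm, Complex.normSq_apply,
    Complex.normSq_apply, Complex.normSq_apply, Complex.normSq_apply, Complex.add_re, Complex.add_im,
    Complex.sub_re, Complex.sub_im]
  ring

theorem nrm_nn (f : S → ℂ) : 0 ≤ nrm f := Finset.sum_nonneg fun _ _ => by positivity

theorem nrm_smul (l : ℝ) (g : S → ℂ) : nrm (fun s => (l : ℂ) * g s) = l ^ 2 * nrm g := by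
  unfold nrm
  rw [Finset.mul_sum]
  refine Finset.sum_congr rfl fun s _ => ?_
  rw [norm_mul, mul_pow, Complex.norm_real, Real.norm_eq_abs, sq_abs]

/-- The difference of the norms. -/
theorem nrm_diff (l : ℝ) (f g : S → ℂ) : nrm (fun s => f s + (l : ℂ) * (g s - f s)) -
    nrm (fun s => f s - (l : ℂ) * (g s - f s)) =
      2 * l * (nrm g - nrm f - nrm (fun s => g s - f s)) := by
  unfold nrm
  rw [← Finset.sum_sub_distrib, ← Finset.sum_sub_distrib, ← Finset.sum_sub_distrib, Finset.mul_sum]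
  refine Finset.sum_congr rfl fun s _ => ?_
  rw [Complex.sq_norm, Complex.sq_norm, Complex.sq_norm, Complex.sq_norm, Complex.sq_norm,
    Complex.normSq_apply, Complex.normSq_apply, Complex.normSq_apply, Complex.normSq_apply,
    Complex.normSq_apply]
  simp only [Complex.add_re, Complex.add_im, Complex.sub_re, Complex.sub_im, Complex.mul_re,
    Complex.mul_im, Complex.ofReal_re, Complex.ofReal_im]
  ring

/-- The form. -/
noncomputable def EE (bx : S → T) (pt : S → T → S) (B : T → T → ℂ) (f : S → ℂ) : ℂ :=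
  ∑ s, ∑ τ, conj (f s) * B (bx s) τ * f (pt s τ)

theorem EE_diff (bx : S → T) (pt : S → T → S) (B : T → T → ℂ) (l : ℝ) (f g : S → ℂ) :
    EE bx pt B (fun s => f s + (l : ℂ) * (g s - f s)) -
      EE bx pt B (fun s => f s - (l : ℂ) * (g s - f s)) =
      2 * l * (EE bx pt B g - EE bx pt B f - EE bx pt B (fun s => g s - f s)) := by
  unfold EE
  simp only [← Finset.sum_sub_distrib, Finset.mul_sum]
  refine Finset.sum_congr rfl fun s _ => Finset.sum_congr rfl fun τ _ => ?_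
  simp only [map_add, map_sub, map_mul, Complex.conj_ofReal]
  ring

/-- The estimate. -/
theorem near (bx : S → T) (pt : S → T → S) (B : T → T → ℂ)
    (hF : ∀ f : S → ℂ, ‖EE bx pt B f‖ ≤ nrm f) (f g : S → ℂ) (ε : ℝ) (hε : 0 < ε) (hε1 : ε ≤ 1)
    (hf : nrm f = 1) (hg : nrm (fun s => g s - f s) ≤ (ε / 8) ^ 2) :
    0 < nrm g ∧ ‖EE bx pt B f - EE bx pt B g / (nrm g : ℂ)‖ ≤ ε := by
  set χ : S → ℂ := fun s => g s - f s with hχ
  have hχ0 : 0 ≤ nrm χ := nrm_nn χ
  have hl : (0 : ℝ) < 8 / ε := by positivity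
  have hsum : nrm (fun s => f s + ((8 / ε : ℝ) : ℂ) * (g s - f s)) +
      nrm (fun s => f s - ((8 / ε : ℝ) : ℂ) * (g s - f s)) ≤ 4 := by
    have h1 := par f (fun s => ((8 / ε : ℝ) : ℂ) * (g s - f s))
    rw [nrm_smul (8 / ε) (fun s => g s - f s), hf] at h1
    rw [h1]
    have h2 : (8 / ε) ^ 2 * nrm (fun s => g s - f s) ≤ (8 / ε) ^ 2 * (ε / 8) ^ 2 :=
      mul_le_mul_of_nonneg_left hg (by positivity)
    have h3 : (8 / ε) ^ 2 * (ε / 8) ^ 2 = 1 := by
      field_simp
    linarith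
  have hn1 := nrm_nn (fun s => f s + ((8 / ε : ℝ) : ℂ) * (g s - f s))
  have hn2 := nrm_nn (fun s => f s - ((8 / ε : ℝ) : ℂ) * (g s - f s))
  -- the norm of `g`
  have hN : |nrm g - 1| ≤ ε / 4 + (ε / 8) ^ 2 := by
    have h1 := nrm_diff (8 / ε) f g
    rw [hf] at h1
    have h2 : |2 * (8 / ε) * (nrm g - 1 - nrm χ)| ≤ 4 := by
      rw [← h1, abs_le]
      constructor <;> linarith
    rw [abs_mul, abs_of_pos (by positivity : (0 : ℝ) < 2 * (8 / ε))] at h2
    have h3 : |nrm g - 1 - nrm χ| ≤ ε / 4 := by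
      have h4 : 2 * (8 / ε) * |nrm g - 1 - nrm χ| = 16 * (|nrm g - 1 - nrm χ| / ε) := by ring
      rw [h4] at h2
      have h5 : |nrm g - 1 - nrm χ| / ε ≤ 1 / 4 := by linarith
      rw [div_le_iff₀ hε] at h5
      linarith
    rw [abs_le] at h3 ⊢
    constructor <;> nlinarith [h3.1, h3.2]
  have hE : ‖EE bx pt B g - EE bx pt B f‖ ≤ ε / 4 + (ε / 8) ^ 2 := by
    have h1 := EE_diff bx pt B (8 / ε) f g
    have h2 : ‖2 * ((8 / ε : ℝ) : ℂ) * (EE bx pt B g - EE bx pt B f - EE bx pt B χ)‖ ≤ 4 := by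
      rw [← h1]
      refine (norm_sub_le _ _).trans ?_
      have := hF (fun s => f s + ((8 / ε : ℝ) : ℂ) * (g s - f s))
      have := hF (fun s => f s - ((8 / ε : ℝ) : ℂ) * (g s - f s))
      linarith
    rw [norm_mul, norm_mul, Complex.norm_real, Real.norm_of_nonneg hl.le] at h2
    have h6 : ‖(2 : ℂ)‖ = 2 := by simp
    rw [h6] at h2
    have h3 : ‖EE bx pt B g - EE bx pt B f - EE bx pt B χ‖ ≤ ε / 4 := by
      set q := ‖EE bx pt B g - EE bx pt B f - EE bx pt B χ‖
      have h4 : 2 * (8 / ε) * q = 16 * (q / ε) := by ring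
      rw [h4] at h2
      have h5 : q / ε ≤ 1 / 4 := by linarith
      rw [div_le_iff₀ hε] at h5
      linarith
    calc ‖EE bx pt B g - EE bx pt B f‖
        = ‖(EE bx pt B g - EE bx pt B f - EE bx pt B χ) + EE bx pt B χ‖ := by
          congr 1
          ring
      _ ≤ _ := norm_add_le _ _
      _ ≤ ε / 4 + (ε / 8) ^ 2 := add_le_add h3 ((hF χ).trans hg)
  have hsmall : ε / 4 + (ε / 8) ^ 2 ≤ ε / 2 := by nlinarith
  have hpos : 0 < nrm g := by
    have := (abs_le.1 hN).1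
    linarith
  refine ⟨hpos, ?_⟩
  have h7 : EE bx pt B f - EE bx pt B g / (nrm g : ℂ) =
      -(EE bx pt B g - EE bx pt B f) + EE bx pt B g / (nrm g : ℂ) * ((nrm g - 1 : ℝ) : ℂ) := by
    have h8 : (nrm g : ℂ) ≠ 0 := by exact_mod_cast hpos.ne'
    field_simp
    push_cast
    ring
  rw [h7]
  refine (norm_add_le _ _).trans ?_
  rw [norm_neg, norm_mul, norm_div, Complex.norm_real, Complex.norm_real, Real.norm_of_nonneg hpos.le,
    Real.norm_eq_abs]
  have h9 : ‖EE bx pt B g‖ / nrm g ≤ 1 := by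
    rw [div_le_one hpos]
    exact hF g
  have h10 : ‖EE bx pt B g‖ / nrm g * |nrm g - 1| ≤ 1 * (ε / 4 + (ε / 8) ^ 2) :=
    mul_le_mul h9 hN (abs_nonneg _) zero_le_one
  linarith

end abs

theorem main : NearS := by
  intro R
  obtain ⟨r, a, hr, hreg⟩ := Pool.Agent.Y70.PE.region 2 R
  refine ⟨r, fun L _ hL Ψ φ ε hε hε1 hΨ hinv hφ => ?_⟩
  have hinv' : TransInv Ψ := by
    intro u
    obtain ⟨c, hc⟩ := hinv u
    exact ⟨c, fun s => congrFun hc s⟩
  have key : ∀ (w : Site L) (B : BConf 2 r → BConf 2 r → ℂ), Contr B →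
      0 < nrm φ ∧ ‖expec Ψ w B - expec φ w B / (nrm φ : ℂ)‖ ≤ ε := by
    intro w B hB
    exact near (fun s => box r s w) (fun s τ => put s w τ) B
      (fun f => Pool.Agent.Y65.PE.bound 2 L r hL f w B hB) Ψ φ ε hε hε1 hΨ hφ
  have h0 : Contr (fun _ _ => (0 : ℂ) : BConf 2 r → BConf 2 r → ℂ) := by
    intro f
    have h1 : nrm (fun σ : BConf 2 r => ∑ τ : BConf 2 r, (0 : ℂ) * f τ) = 0 := by
      unfold nrm
      simp
    rw [h1]
    exact nrm_nn f
  refine ⟨(key 0 _ h0).1.ne', fun u v B hB => ?_⟩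
  obtain ⟨B', hB', hexp⟩ := hreg B hB
  rw [hexp L hL Ψ u, hexp L hL φ v, transInv_expec Ψ hΨ hinv', hΨ, Complex.ofReal_one, div_one,
    ← transInv_expec Ψ hΨ hinv' r (v.1 + (a.1 : ZMod L), v.2 + (a.2 : ZMod L)) B']
  exact (key _ B' hB').2

end Pool.Agent.Q241.KT.NR
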